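import Pool.Graph.R_seed8.R239.Transp.Main

/-!
Averages over the sphere of `min (1, a / W)`, `W = max (|w₁|, |w₂|)`.
-/

set_option autoImplicit false

open Set Topology MeasureTheory Metric Filter
open scoped Pointwise

namespace Pool.Agent.H30TR

open Pool.Agent.R239.Transp

/-- the larger one of the two transversal coordinates of a direction -/
noncomputable def W (w : S2) : ℝ := max |(w : E3) 1| |(w : E3) 2|

lemma continuous_W : Continuous W := (continuous_coord 1).abs.max (continuous_coord 2).abs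

lemma W_nonneg (w : S2) : 0 ≤ W w := (abs_nonneg _).trans (le_max_left _ _)

lemma abs_coord_le (w : S2) (i : Fin 3) : |(w : E3) i| ≤ 1 := by
  have h := sum_sq w
  have h0 := sq_nonneg ((w : E3) 0)
  have h1 := sq_nonneg ((w : E3) 1)
  have h2 := sq_nonneg ((w : E3) 2)
  rw [abs_le]
  fin_cases i <;> constructor <;> simp <;> nlinarith

lemma measurableSet_W (t : ℝ) : MeasurableSet {w : S2 | W w ≤ t} :=
  (isClosed_le continuous_W continuous_const).measurableSet

/-- the box which contains the cone over the directions with `W ≤ t` -/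
lemma volume_box {t : ℝ} (ht : 0 ≤ t) :
    (volume : Measure E3) {p | |p 0| ≤ 1 ∧ |p 1| ≤ t ∧ |p 2| ≤ t} = ENNReal.ofReal (8 * t ^ 2) := by
  have hmp := EuclideanSpace.volume_preserving_symm_measurableEquiv_toLp (Fin 3)
  have e : {p : E3 | |p 0| ≤ 1 ∧ |p 1| ≤ t ∧ |p 2| ≤ t} =
      (MeasurableEquiv.toLp 2 (Fin 3 → ℝ)).symm ⁻¹' Icc ![-1, -t, -t] ![1, t, t] := by
    ext p
    simp only [mem_preimage, mem_Icc, Pi.le_def, Fin.forall_fin_succ, abs_le]
    simp
    tauto
  rw [e, hmp.measure_preimage measurableSet_Icc.nullMeasurableSet, Real.volume_Icc_pi,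
    Fin.prod_univ_three]
  simp only [Matrix.cons_val_zero, Matrix.cons_val_one, Matrix.cons_val]
  rw [← ENNReal.ofReal_mul (by norm_num), ← ENNReal.ofReal_mul (by nlinarith)]
  congr 1
  ring

lemma pr_W_le {t : ℝ} (ht : 0 ≤ t) : pr.real {w : S2 | W w ≤ t} ≤ 2 * t ^ 2 := by
  have h1 : pr {w : S2 | W w ≤ t} ≤ ENNReal.ofReal (2 * t ^ 2) := by
    unfold pr sig
    rw [Measure.smul_apply, smul_eq_mul, Measure.toSphere_apply' _ (measurableSet_W t)]
    have hsub : Ioo (0 : ℝ) 1 • ((fun w : S2 => (w : E3)) '' {w : S2 | W w ≤ t}) ⊆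
        {p : E3 | |p 0| ≤ 1 ∧ |p 1| ≤ t ∧ |p 2| ≤ t} := by
      rintro x ⟨s, hs, y, ⟨w, hw, rfl⟩, rfl⟩
      have hw' : W w ≤ t := hw
      have h1 : |(w : E3) 1| ≤ t := (le_max_left _ _).trans hw'
      have h2 : |(w : E3) 2| ≤ t := (le_max_right _ _).trans hw'
      have h0 := abs_coord_le w 0
      have key : ∀ a b : ℝ, |a| ≤ b → |s * a| ≤ b := by
        intro a b hab
        rw [abs_mul, abs_of_pos hs.1]
        have := abs_nonneg a
        nlinarith [hs.2]
      refine ⟨?_, ?_, ?_⟩
      · simpa using key _ _ h0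
      · simpa using key _ _ h1
      · simpa using key _ _ h2
    have h2 := (measure_mono hsub).trans (volume_box ht).le
    have hpi := Real.pi_gt_three
    simp only [finrank_euclideanSpace, Fintype.card_fin]
    calc (ENNReal.ofReal (4 * Real.pi))⁻¹ * (((3 : ℕ) : ENNReal) *
          (volume : Measure E3) (Ioo (0 : ℝ) 1 • ((fun w : S2 => (w : E3)) '' {w : S2 | W w ≤ t})))
        ≤ (ENNReal.ofReal (4 * Real.pi))⁻¹ * (((3 : ℕ) : ENNReal) * ENNReal.ofReal (8 * t ^ 2)) := by
          gcongr
      _ = ENNReal.ofReal ((4 * Real.pi)⁻¹ * (3 * (8 * t ^ 2))) := by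
          rw [show ((3 : ℕ) : ENNReal) = ENNReal.ofReal 3 by simp,
            ← ENNReal.ofReal_mul (by norm_num), ← ENNReal.ofReal_inv_of_pos (by positivity),
            ← ENNReal.ofReal_mul (by positivity)]
      _ ≤ ENNReal.ofReal (2 * t ^ 2) := by
          apply ENNReal.ofReal_le_ofReal
          rw [inv_mul_le_iff₀ (by positivity)]
          nlinarith [sq_nonneg t]
  have h2 := ENNReal.toReal_mono ENNReal.ofReal_ne_top h1
  rwa [ENNReal.toReal_ofReal (by positivity)] at h2

/-- the function `min (1, a / W)` -/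
noncomputable def hh (a : ℝ) (w : S2) : ℝ := if W w ≤ a then 1 else a / W w

lemma hh_nonneg {a : ℝ} (ha : 0 ≤ a) (w : S2) : 0 ≤ hh a w := by
  unfold hh
  split_ifs with h
  · norm_num
  · exact div_nonneg ha (W_nonneg w)

lemma hh_le_one {a : ℝ} (ha : 0 ≤ a) (w : S2) : hh a w ≤ 1 := by
  unfold hh
  split_ifs with h
  · exact le_rfl
  · push Not at h
    rw [div_le_one (lt_of_le_of_lt ha h)]
    exact h.le

lemma measurable_hh (a : ℝ) : Measurable (hh a) :=
  Measurable.ite (measurableSet_W a) measurable_const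
    (measurable_const.div continuous_W.measurable)

lemma integrable_hh {a : ℝ} (ha : 0 ≤ a) : Integrable (hh a) pr := by
  apply Integrable.of_bound (C := 1) (measurable_hh a).aestronglyMeasurable
  refine Eventually.of_forall fun w => ?_
  rw [Real.norm_of_nonneg (hh_nonneg ha w)]
  exact hh_le_one ha w

/-- the average of `min (1, a / W)` is at most `3 a` -/
lemma integral_hh {a : ℝ} (ha : 0 < a) : ∫ w, hh a w ∂pr ≤ 3 * a := by
  rw [(integrable_hh ha.le).integral_eq_integral_meas_le
    (Eventually.of_forall fun w => hh_nonneg ha.le w)]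
  set c : ℝ := 3 / 2 * a with hc
  have hc0 : 0 < c := by positivity
  have hg : IntegrableOn (fun t : ℝ => 2 * a ^ 2 * t ^ (-2 : ℝ)) (Ioi c) :=
    (integrableOn_Ioi_rpow_of_lt (by norm_num) hc0).const_mul _
  have hg0 : IntegrableOn (fun _ : ℝ => (1 : ℝ)) (Ioc 0 c) := by
    rw [integrableOn_const_iff]
    right
    simp
  set F : ℝ → ℝ := fun t => pr.real {w | t ≤ hh a w} with hF
  have hF1 : ∀ t, F t ≤ 1 := fun t => by
    have h1 : F t ≤ pr.real univ := measureReal_mono (subset_univ _) (measure_ne_top _ _)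
    simpa using h1
  have hF0 : ∀ t, 0 ≤ F t := fun t => measureReal_nonneg
  have hF2 : ∀ t, 0 < t → F t ≤ 2 * a ^ 2 * t ^ (-2 : ℝ) := by
    intro t ht
    by_cases h1 : t ≤ 1
    · have h2 : F t ≤ pr.real {w : S2 | W w ≤ a / t} := by
        apply measureReal_mono _ (measure_ne_top _ _)
        intro w hw
        have hw' : t ≤ hh a w := hw
        unfold hh at hw'
        change W w ≤ a / t
        rw [le_div_iff₀ ht]
        split_ifs at hw' with h3
        · nlinarith [W_nonneg w]
        · push Not at h3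
          rw [le_div_iff₀ (ha.trans h3)] at hw'
          linarith
      have h3 := h2.trans (pr_W_le (by positivity : 0 ≤ a / t))
      refine h3.trans (le_of_eq ?_)
      rw [Real.rpow_neg ht.le, div_pow, Real.rpow_ofNat]
      ring
    · push Not at h1
      have h2 : F t ≤ pr.real (∅ : Set S2) := by
        apply measureReal_mono _ (measure_ne_top _ _)
        intro w hw
        have hw' : t ≤ hh a w := hw
        linarith [hh_le_one ha.le w]
      rw [measureReal_empty] at h2
      have : (0 : ℝ) ≤ t ^ (-2 : ℝ) := Real.rpow_nonneg ht.le _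
      have : 0 ≤ 2 * a ^ 2 * t ^ (-2 : ℝ) := by positivity
      linarith
  have hFm : Antitone F := by
    intro s t hst
    apply measureReal_mono _ (measure_ne_top _ _)
    intro w hw
    exact hst.trans hw
  have hFi1 : IntegrableOn F (Ioc 0 c) := by
    apply Measure.integrableOn_of_bounded (M := 1) (by simp) hFm.measurable.aestronglyMeasurable
    refine Eventually.of_forall fun t => ?_
    rw [Real.norm_of_nonneg (hF0 t)]
    exact hF1 t
  have hFi2 : IntegrableOn F (Ioi c) := by
    refine Integrable.mono' hg hFm.measurable.aestronglyMeasurable ?_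
    refine (ae_restrict_iff' measurableSet_Ioi).2 (Eventually.of_forall fun t ht => ?_)
    rw [Real.norm_of_nonneg (hF0 t)]
    exact hF2 t (hc0.trans ht)
  rw [← Ioc_union_Ioi_eq_Ioi hc0.le, setIntegral_union (by
    rw [Set.disjoint_left]; intro t h1 h2; exact absurd h1.2 (not_le.2 h2)) measurableSet_Ioi
    hFi1 hFi2]
  have i1 : ∫ t in Ioc 0 c, F t ≤ c := by
    have h1 : ∫ t in Ioc 0 c, F t ≤ ∫ _ in Ioc 0 c, (1 : ℝ) :=
      setIntegral_mono hFi1 hg0 hF1
    rw [setIntegral_const, smul_eq_mul, mul_one] at h1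
    simpa [hc0.le] using h1
  have i2 : ∫ t in Ioi c, F t ≤ 2 * a ^ 2 * c⁻¹ := by
    have h1 : ∫ t in Ioi c, F t ≤ ∫ t in Ioi c, 2 * a ^ 2 * t ^ (-2 : ℝ) :=
      setIntegral_mono_on hFi2 hg measurableSet_Ioi (fun t ht => hF2 t (hc0.trans ht))
    rw [integral_const_mul, integral_Ioi_rpow_of_lt (by norm_num) hc0] at h1
    refine h1.trans (le_of_eq ?_)
    rw [show (-2 : ℝ) + 1 = -1 by norm_num, Real.rpow_neg_one]
    ring
  have i3 : 2 * a ^ 2 * c⁻¹ = 4 / 3 * a := by
    rw [hc]
    field_simp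
    norm_num
  rw [i3] at i2
  linarith

end Pool.Agent.H30TR
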