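import Pool.Agent.H30TR.Meas

/-!
Thin pyramids.
-/

set_option autoImplicit false

open Set Topology MeasureTheory Metric Filter

namespace Pool.Agent.H30TR

open Pool.Agent.R239.Transp

/-- the thin pyramid of length ten with the apex at the origin -/
def pyr (ρ : ℝ) : Set E3 := {p | 0 < p 0 ∧ p 0 < 10 ∧ |p 1| < ρ * p 0 ∧ |p 2| < ρ * p 0}

lemma isOpen_pyr (ρ : ℝ) : IsOpen (pyr ρ) := by
  have c : ∀ i : Fin 3, Continuous fun p : E3 => p i := fun i => by fun_prop
  exact (isOpen_lt continuous_const (c 0)).inter ((isOpen_lt (c 0) continuous_const).inter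
    ((isOpen_lt (c 1).abs (continuous_const.mul (c 0))).inter
      (isOpen_lt (c 2).abs (continuous_const.mul (c 0)))))

lemma convex_pyr (ρ : ℝ) : Convex ℝ (pyr ρ) := by
  rintro p ⟨p1, p2, p3, p4⟩ q ⟨q1, q2, q3, q4⟩ a b ha hb hab
  have key : ∀ x y u v : ℝ, |x| < ρ * u → |y| < ρ * v → |a * x + b * y| < ρ * (a * u + b * v) := by
    intro x y u v hx hy
    have h1 : |a * x + b * y| ≤ a * |x| + b * |y| := by
      refine (abs_add_le _ _).trans (le_of_eq ?_)
      rw [abs_mul, abs_mul, abs_of_nonneg ha, abs_of_nonneg hb]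
    have h2 : a * |x| + b * |y| < a * (ρ * u) + b * (ρ * v) := by
      rcases ha.lt_or_eq with h | h
      · have := mul_lt_mul_of_pos_left hx h
        have := mul_le_mul_of_nonneg_left hy.le hb
        linarith
      · rw [← h] at hab ⊢
        have hb1 : b = 1 := by linarith
        rw [hb1]
        linarith
    calc |a * x + b * y| ≤ a * |x| + b * |y| := h1
      _ < a * (ρ * u) + b * (ρ * v) := h2
      _ = ρ * (a * u + b * v) := by ring
  refine ⟨?_, ?_, ?_, ?_⟩
  · simp only [PiLp.add_apply, PiLp.smul_apply, smul_eq_mul]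
    rcases ha.lt_or_eq with h | h
    · have := mul_pos h p1
      have := mul_nonneg hb q1.le
      linarith
    · rw [← h] at hab ⊢
      have hb1 : b = 1 := by linarith
      rw [hb1]
      linarith
  · simp only [PiLp.add_apply, PiLp.smul_apply, smul_eq_mul]
    have h1 : a * p 0 + b * q 0 < a * 10 + b * 10 := by
      rcases ha.lt_or_eq with h | h
      · have := mul_lt_mul_of_pos_left p2 h
        have := mul_le_mul_of_nonneg_left q2.le hb
        linarith
      · rw [← h] at hab ⊢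
        have hb1 : b = 1 := by linarith
        rw [hb1]
        linarith
    have h2 : a * 10 + b * 10 = 10 := by rw [← add_mul, hab, one_mul]
    linarith
  · simpa using key _ _ _ _ p3 q3
  · simpa using key _ _ _ _ p4 q4

section

variable {ρ : ℝ} (hρ : 0 < ρ) (hρ1 : ρ ≤ 1 / 100)

include hρ in
lemma bound_pyr {p : E3} (hp : p ∈ pyr ρ) : |p 1| < 10 * ρ ∧ |p 2| < 10 * ρ := by
  obtain ⟨h1, h2, h3, h4⟩ := hp
  constructor <;> nlinarith

include hρ hρ1 in
lemma diam_pyr : DiamLt (pyr ρ) 30 := by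
  refine ⟨by norm_num, ?_⟩
  intro p hp q hq
  obtain ⟨p3, p4⟩ := bound_pyr hρ hp
  obtain ⟨q3, q4⟩ := bound_pyr hρ hq
  obtain ⟨p1, p2, -, -⟩ := hp
  obtain ⟨q1, q2, -, -⟩ := hq
  rw [abs_lt] at p3 p4 q3 q4
  rw [EuclideanSpace.dist_eq, Real.sqrt_lt' (by norm_num), Fin.sum_univ_three]
  simp only [Real.dist_eq, sq_abs]
  have h0 : (p 0 - q 0) ^ 2 < 10 ^ 2 := by
    apply sq_lt_sq' <;> linarith
  have h1 : (p 1 - q 1) ^ 2 < 1 ^ 2 := by
    apply sq_lt_sq' <;> linarith
  have h2 : (p 2 - q 2) ^ 2 < 1 ^ 2 := by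
    apply sq_lt_sq' <;> linarith
  linarith

lemma exists_coord (w : S2) : ∃ i : Fin 3, (i = 1 ∨ i = 2) ∧ |(w : E3) i| = W w := by
  rcases max_choice |(w : E3) 1| |(w : E3) 2| with h | h
  · exact ⟨1, Or.inl rfl, h.symm⟩
  · exact ⟨2, Or.inr rfl, h.symm⟩

include hρ in
lemma bound_i {p : E3} (hp : p ∈ pyr ρ) {i : Fin 3} (hi : i = 1 ∨ i = 2) : |p i| < ρ * p 0 := by
  rcases hi with rfl | rfl
  · exact hp.2.2.1
  · exact hp.2.2.2

include hρ in
/-- the global bound of the exit distance -/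
lemma exit_W (r : E3) (w : S2) : exitD (pyr ρ) r w * W w ≤ 20 * ρ := by
  by_contra hcon
  push Not at hcon
  obtain ⟨i, hi, hiW⟩ := exists_coord w
  set D := exitD (pyr ρ) r w with hD
  have hD0 : 0 ≤ D := exitD_nonneg _ _ _
  have hW0 : 0 < W w := by
    rcases (W_nonneg w).lt_or_eq with h | h
    · exact h
    · rw [← h, mul_zero] at hcon
      linarith
  set τ := 20 * ρ / W w with hτ
  have hτ0 : 0 < τ := by positivity
  have hτW : τ * W w = 20 * ρ := by rw [hτ]; field_simp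
  have hτD : τ < D := by
    rw [hτ, div_lt_iff₀ hW0]
    exact hcon
  have h1 := mem_of_lt_exitD (V := pyr ρ) (r := r) (w := w) (t := (D - τ) / 3) (by linarith)
    (by linarith)
  have h2 := mem_of_lt_exitD (V := pyr ρ) (r := r) (w := w) (t := (D - τ) / 3 + τ) (by linarith)
    (by linarith)
  have b1 := bound_i hρ h1 hi
  have b2 := bound_i hρ h2 hi
  have c1 := h1.2.1
  have c2 := h2.2.1
  have e1 : ρ * (r + ((D - τ) / 3) • (w : E3)) 0 < ρ * 10 := mul_lt_mul_of_pos_left c1 hρ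
  have e2 : ρ * (r + ((D - τ) / 3 + τ) • (w : E3)) 0 < ρ * 10 := mul_lt_mul_of_pos_left c2 hρ
  have e3 : τ * W w = |τ * (w : E3) i| := by rw [abs_mul, abs_of_pos hτ0, hiW]
  have e4 : τ * (w : E3) i = (r + ((D - τ) / 3 + τ) • (w : E3)) i - (r + ((D - τ) / 3) • (w : E3)) i := by
    rw [coord, coord]; ring
  have e5 := abs_sub (((r + ((D - τ) / 3 + τ) • (w : E3)) i)) ((r + ((D - τ) / 3) • (w : E3)) i)
  rw [← e4, ← e3, hτW] at e5
  linarith

lemma axis_coord (s : ℝ) : (s • (w0 : E3)) 0 = s ∧ (s • (w0 : E3)) 1 = 0 ∧ (s • (w0 : E3)) 2 = 0 := by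
  refine ⟨?_, ?_, ?_⟩ <;> simp [w0]

lemma axis_i (s : ℝ) {i : Fin 3} (hi : i = 1 ∨ i = 2) : (s • (w0 : E3)) i = 0 := by
  rcases hi with rfl | rfl
  · exact (axis_coord s).2.1
  · exact (axis_coord s).2.2

include hρ in
/-- the bound of the exit distance on the axis -/
lemma exit_near {s : ℝ} (hs : 0 < s) {w : S2} (hw : 11 * ρ ≤ W w) :
    exitD (pyr ρ) (s • (w0 : E3)) w * W w ≤ 11 / 10 * ρ * s := by
  obtain ⟨i, hi, hiW⟩ := exists_coord w
  have hW0 : 0 < W w := by linarith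
  set D := exitD (pyr ρ) (s • (w0 : E3)) w with hD
  by_contra hcon
  push Not at hcon
  set t := 11 / 10 * ρ * s / W w with ht
  have ht0 : 0 < t := by positivity
  have htW : t * W w = 11 / 10 * ρ * s := by rw [ht]; field_simp
  have htD : t < D := by
    rw [ht, div_lt_iff₀ hW0]
    exact hcon
  have h1 := mem_of_lt_exitD (V := pyr ρ) (r := s • (w0 : E3)) (w := w) ht0 htD
  have b1 := bound_i hρ h1 hi
  rw [coord, coord, axis_i s hi, (axis_coord s).1, zero_add, abs_mul, abs_of_pos ht0, hiW, htW] at b1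
  have b2 := (abs_le.1 (abs_coord_le w 0)).2
  have b3 : ρ * (s + t * (w : E3) 0) ≤ ρ * (s + t) := by
    have : t * (w : E3) 0 ≤ t * 1 := mul_le_mul_of_nonneg_left b2 ht0.le
    have := mul_le_mul_of_nonneg_left (by linarith : s + t * (w : E3) 0 ≤ s + t) hρ.le
    linarith
  have b4 : ρ * t ≤ 1 / 10 * ρ * s := by
    have : t * (11 * ρ) ≤ t * W w := mul_le_mul_of_nonneg_left hw ht0.le
    rw [htW] at this
    linarith
  linarith

include hρ hρ1 in
/-- the lower bound of the exit distance on the axis -/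
lemma exit_far {s : ℝ} (hs : 0 < s) (hs9 : s ≤ 9) (w : S2) :
    ρ * s / (1 + ρ) ≤ exitD (pyr ρ) (s • (w0 : E3)) w := by
  apply le_exitD (diam_pyr hρ hρ1)
  intro t ht0 ht1
  rw [lt_div_iff₀ (by linarith)] at ht1
  have a0 := abs_le.1 (abs_coord_le w 0)
  have c0 : -t ≤ t * (w : E3) 0 ∧ t * (w : E3) 0 ≤ t := by
    constructor <;> nlinarith
  have ht2 : t < 1 := by nlinarith
  have hts : t < ρ * (s - t) := by linarith
  have key : ∀ i : Fin 3, (i = 1 ∨ i = 2) →
      |(s • (w0 : E3) + t • (w : E3)) i| < ρ * (s • (w0 : E3) + t • (w : E3)) 0 := by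
    intro i hi
    rw [coord, coord, axis_i s hi, (axis_coord s).1, zero_add, abs_mul, abs_of_pos ht0]
    have h1 : t * |(w : E3) i| ≤ t * 1 := mul_le_mul_of_nonneg_left (abs_coord_le w i) ht0.le
    have h2 : ρ * (s - t) ≤ ρ * (s + t * (w : E3) 0) :=
      mul_le_mul_of_nonneg_left (by linarith) hρ.le
    linarith
  have hst : 0 < s - t := by
    by_contra h
    push Not at h
    nlinarith
  refine ⟨?_, ?_, key 1 (Or.inl rfl), key 2 (Or.inr rfl)⟩
  · rw [coord, (axis_coord s).1]; linarith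
  · rw [coord, (axis_coord s).1]; linarith

include hρ hρ1 in
lemma exit_apex : exitD (pyr ρ) ((1 / 10 : ℝ) • (w0 : E3)) w0 = 99 / 10 := by
  apply le_antisymm
  · unfold exitD
    apply csInf_le (exitD_bddBelow _ _ _)
    refine ⟨by norm_num, ?_⟩
    rintro ⟨h1, h2, h3, h4⟩
    rw [← add_smul, (axis_coord _).1] at h2
    norm_num at h2
  · apply le_exitD (diam_pyr hρ hρ1)
    intro t ht0 ht1
    rw [← add_smul]
    obtain ⟨h0, h1, h2⟩ := axis_coord (1 / 10 + t)
    refine ⟨?_, ?_, ?_, ?_⟩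
    · rw [h0]; linarith
    · rw [h0]; linarith
    · rw [h0, h1, abs_zero]; positivity
    · rw [h0, h2, abs_zero]; positivity

end

end Pool.Agent.H30TR
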