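import Pool.Agent.H30TR.Pyr

/-!
The sign of the derivative in a thin pyramid.
-/

set_option autoImplicit false

open Set Topology MeasureTheory Metric Filter

namespace Pool.Agent.H30TR

open Pool.Agent.R239.Transp

section

variable {ρ : ℝ} (hρ : 0 < ρ) (hρ1 : ρ ≤ 1 / 10 ^ 6)

include hρ in
lemma hh_global (r : E3) (w : S2) :
    min 1 (exitD (pyr ρ) r w) ≤ hh (20 * ρ) w := by
  unfold hh
  split_ifs with h
  · exact min_le_left _ _
  · push Not at h
    refine (min_le_right _ _).trans ?_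
    rw [le_div_iff₀ (by linarith)]
    exact exit_W hρ r w

lemma one_sub_exp_le {D : ℝ} (hD : 0 ≤ D) : 1 - Real.exp (-D) ≤ min 1 D := by
  refine le_min ?_ ?_
  · linarith [Real.exp_pos (-D)]
  · linarith [Real.add_one_le_exp (-D)]

include hρ hρ1 in
lemma src_le (r : E3) : src (pyr ρ) r ≤ 60 * ρ := by
  have hV := diam_pyr hρ (by linarith : ρ ≤ 1 / 100)
  have h1 : src (pyr ρ) r ≤ ∫ w, hh (20 * ρ) w ∂pr := by
    apply integral_mono (integrable_src hV (isOpen_pyr ρ) r) (integrable_hh (by positivity))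
    intro w
    exact (one_sub_exp_le (exitD_nonneg _ _ _)).trans (hh_global hρ r w)
  have h2 := integral_hh (a := 20 * ρ) (by positivity)
  linarith

include hρ hρ1 in
lemma maj_le (r : E3) : maj (pyr ρ) r ≤ 120 * ρ := by
  have hV := diam_pyr hρ (by linarith : ρ ≤ 1 / 100)
  have h1 : maj (pyr ρ) r ≤ ∫ w, 2 * hh (20 * ρ) w ∂pr := by
    apply integral_mono (integrable_maj hV (isOpen_pyr ρ) r)
      ((integrable_hh (by positivity)).const_mul 2)
    intro w
    obtain ⟨-, h2, h3⟩ := maj_integrand_bounds (pyr ρ) r w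
    have h4 := hh_global hρ r w
    show 2 - (2 + exitD (pyr ρ) r w) * Real.exp (-exitD (pyr ρ) r w) ≤ 2 * hh (20 * ρ) w
    have h5 := exitD_nonneg (pyr ρ) r w
    rcases min_choice 1 (exitD (pyr ρ) r w) with h | h <;> rw [h] at h4 <;> linarith
  have h2 := integral_hh (a := 20 * ρ) (by positivity)
  rw [integral_const_mul] at h1
  linarith

include hρ hρ1 in
/-- the source near the apex -/
lemma src_near {s : ℝ} (hs : 0 < s) :
    src (pyr ρ) (s • (w0 : E3)) ≤ 33 / 10 * ρ * s + 242 * ρ ^ 2 := by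
  have hV := diam_pyr hρ (by linarith : ρ ≤ 1 / 100)
  have hi := integrable_hh (a := 11 / 10 * ρ * s) (by positivity)
  have h1 : src (pyr ρ) (s • (w0 : E3)) ≤
      ∫ w, (hh (11 / 10 * ρ * s) w + {w | W w ≤ 11 * ρ}.indicator (fun _ => (1 : ℝ)) w) ∂pr := by
    apply integral_mono (integrable_src hV (isOpen_pyr ρ) _)
      (hi.add ((integrable_const (1 : ℝ)).indicator (measurableSet_W _)))
    intro w
    have h0 := exitD_nonneg (pyr ρ) (s • (w0 : E3)) w
    have h2 := one_sub_exp_le h0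
    have h3 := hh_nonneg (a := 11 / 10 * ρ * s) (by positivity) w
    by_cases hw : W w ≤ 11 * ρ
    · have : {w | W w ≤ 11 * ρ}.indicator (fun _ => (1 : ℝ)) w = 1 :=
        indicator_of_mem (show w ∈ {w : S2 | W w ≤ 11 * ρ} from hw) _
      show 1 - Real.exp (-exitD (pyr ρ) (s • (w0 : E3)) w) ≤ hh (11 / 10 * ρ * s) w +
        {w | W w ≤ 11 * ρ}.indicator (fun _ => (1 : ℝ)) w
      rw [this]
      linarith [min_le_left (1 : ℝ) (exitD (pyr ρ) (s • (w0 : E3)) w)]
    · have : {w | W w ≤ 11 * ρ}.indicator (fun _ => (1 : ℝ)) w = 0 :=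
        indicator_of_notMem (show w ∉ {w : S2 | W w ≤ 11 * ρ} from hw) _
      show 1 - Real.exp (-exitD (pyr ρ) (s • (w0 : E3)) w) ≤ hh (11 / 10 * ρ * s) w +
        {w | W w ≤ 11 * ρ}.indicator (fun _ => (1 : ℝ)) w
      rw [this, add_zero]
      push Not at hw
      have h4 := exit_near hρ hs hw.le
      unfold hh
      split_ifs with h5
      · exact h2.trans (min_le_left _ _)
      · push Not at h5
        refine h2.trans ((min_le_right _ _).trans ?_)
        rw [le_div_iff₀ (lt_trans (by positivity) h5)]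
        exact h4
  rw [integral_add hi ((integrable_const (1 : ℝ)).indicator (measurableSet_W _)),
    integral_indicator_const _ (measurableSet_W _), smul_eq_mul, mul_one] at h1
  have h2 := integral_hh (a := 11 / 10 * ρ * s) (by positivity)
  have h3 := pr_W_le (t := 11 * ρ) (by positivity)
  nlinarith

include hρ hρ1 in
/-- the source far from the apex -/
lemma src_far {s : ℝ} (hs : 0 < s) (hs9 : s ≤ 9) :
    ρ * s - 90 * ρ ^ 2 ≤ src (pyr ρ) (s • (w0 : E3)) := by
  have hV := diam_pyr hρ (by linarith : ρ ≤ 1 / 100)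
  set u := ρ * s / (1 + ρ) with hu
  have hu0 : 0 ≤ u := by positivity
  have h1 : ∫ _ : S2, (1 - Real.exp (-u)) ∂pr ≤ src (pyr ρ) (s • (w0 : E3)) := by
    apply integral_mono (integrable_const _) (integrable_src hV (isOpen_pyr ρ) _)
    intro w
    have h2 := exit_far hρ (by linarith : ρ ≤ 1 / 100) hs hs9 w
    have h3 : Real.exp (-exitD (pyr ρ) (s • (w0 : E3)) w) ≤ Real.exp (-u) :=
      Real.exp_le_exp.2 (by linarith)
    show 1 - Real.exp (-u) ≤ 1 - Real.exp (-exitD (pyr ρ) (s • (w0 : E3)) w)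
    linarith
  rw [integral_const, smul_eq_mul] at h1
  have h2 : pr.real (univ : Set S2) = 1 := by simp
  rw [h2, one_mul] at h1
  -- 1 - exp (-u) ≥ u - u ^ 2
  have h3 : u - u ^ 2 ≤ 1 - Real.exp (-u) := by
    have h4 : Real.exp (-u) ≤ 1 / (1 + u) := by
      rw [Real.exp_neg, inv_eq_one_div]
      apply one_div_le_one_div_of_le (by linarith)
      linarith [Real.add_one_le_exp u]
    have h5 : 1 / (1 + u) ≤ 1 - u + u ^ 2 := by
      rw [div_le_iff₀ (by linarith)]
      nlinarith [mul_nonneg hu0 (sq_nonneg u)]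
    linarith
  have h6 : ρ * s * (1 - ρ) ≤ u := by
    rw [hu, le_div_iff₀ (by linarith)]
    nlinarith [mul_nonneg (mul_nonneg hρ.le hs.le) (sq_nonneg ρ)]
  have h7 : u ≤ ρ * s := by
    rw [hu, div_le_iff₀ (by linarith)]
    nlinarith [mul_nonneg (mul_nonneg hρ.le hs.le) hρ.le]
  have h8 : u ^ 2 ≤ (ρ * s) ^ 2 := pow_le_pow_left₀ hu0 h7 2
  have h9 : (ρ * s) ^ 2 ≤ (ρ * 9) ^ 2 := by
    apply pow_le_pow_left₀ (by positivity)
    gcongr
  have h10 : ρ * s * ρ ≤ ρ * 9 * ρ := by gcongr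
  nlinarith

/-- the explicit antiderivative -/
lemma integral_kd_lin (α γ a b : ℝ) : ∫ x in a..b, kd x * (α * x + γ) =
    (α * (b ^ 2 + b + 1) + γ * b) * Real.exp (-b) - (α * (a ^ 2 + a + 1) + γ * a) * Real.exp (-a) := by
  have h : ∀ x ∈ uIcc a b, HasDerivAt (fun x => (α * (x ^ 2 + x + 1) + γ * x) * Real.exp (-x))
      (kd x * (α * x + γ)) x := by
    intro x _
    have h1 : HasDerivAt (fun x : ℝ => α * (x ^ 2 + x + 1) + γ * x)
        (α * (2 * x + 1) + γ * 1) x := by
      have h3 : HasDerivAt (fun x : ℝ => x ^ 2 + x + 1) (2 * x + 1) x := by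
        have := ((hasDerivAt_pow 2 x).add (hasDerivAt_id x)).add_const (1 : ℝ)
        simpa using this
      exact (h3.const_mul α).add ((hasDerivAt_id x).const_mul γ)
    have h2 : HasDerivAt (fun x : ℝ => Real.exp (-x)) (Real.exp (-x) * -1) x :=
      (hasDerivAt_neg x).exp
    refine (h1.mul h2).congr_deriv ?_
    unfold kd
    ring
  rw [intervalIntegral.integral_eq_sub_of_hasDerivAt h
    ((continuous_kd.mul (by fun_prop)).intervalIntegrable _ _)]

lemma integral_kd_lin' (α γ κ a b : ℝ) : ∫ x in a..b, (kd x * (α * x + γ) + κ) =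
    (α * (b ^ 2 + b + 1) + γ * b) * Real.exp (-b) - (α * (a ^ 2 + a + 1) + γ * a) * Real.exp (-a) +
      (b - a) * κ := by
  have h1 : IntervalIntegrable (fun x => kd x * (α * x + γ)) volume a b :=
    (continuous_kd.mul (by fun_prop)).intervalIntegrable _ _
  have h2 : IntervalIntegrable (fun _ : ℝ => κ) volume a b :=
    continuous_const.intervalIntegrable _ _
  rw [intervalIntegral.integral_add h1 h2, integral_kd_lin, intervalIntegral.integral_const,
    smul_eq_mul]

include hρ hρ1 in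
/-- the derivative is negative at the point with the coordinate `1 / 10` of the axis in the
direction of the axis -/
theorem sign_pyr (m md : E3 → ℝ) (hm : IsAvg (pyr ρ) 1 m) (hm0 : ∀ r, 0 ≤ m r)
    (hmd : Measurable md) (hC : ∃ C, ∀ r, |md r| ≤ C)
    (hmdeq : ∀ r, md r = op (pyr ρ) kd m r + op (pyr ρ) (kl 1) md r) :
    ray (pyr ρ) kd m ((1 / 10 : ℝ) • (w0 : E3)) w0 +
      ray (pyr ρ) (kl 1) md ((1 / 10 : ℝ) • (w0 : E3)) w0 < 0 := by
  obtain ⟨C0, hC0⟩ := hC
  obtain ⟨Cm, hCm⟩ := hm.bdd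
  have hρ2 : ρ ≤ 1 / 100 := by linarith
  have hV := diam_pyr hρ hρ2
  have hVo := isOpen_pyr ρ
  set V := pyr ρ with hVdef
  have hsrc := src_le hρ hρ1
  have hmaj := maj_le hρ hρ1
  -- bound for m
  have hmμ : ∀ r, |m r| ≤ 120 * ρ := by
    intro r
    have h := sup_lemma (a := 60 * ρ) (q := 60 * ρ) hCm (by linarith) (by
      intro C hC r
      have hC' : 0 ≤ C := (abs_nonneg _).trans (hC r)
      rw [hm.eq r]
      have h1 := op_kl_src hV hVo hC r
      have h2 := src_nonneg V r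
      calc |src V r + op V (kl 1) m r| ≤ |src V r| + |op V (kl 1) m r| := abs_add_le _ _
        _ ≤ 60 * ρ + C * src V r := by rw [abs_of_nonneg h2]; linarith [hsrc r]
        _ ≤ 60 * ρ + C * (60 * ρ) := by
            have := mul_le_mul_of_nonneg_left (hsrc r) hC'
            linarith
        _ = _ := by ring) r
    refine h.trans ?_
    rw [div_le_iff₀ (by linarith)]
    nlinarith
  -- bound for md
  have hmdν : ∀ r, |md r| ≤ 28800 * ρ ^ 2 := by
    intro r
    have h := sup_lemma (a := 14400 * ρ ^ 2) (q := 60 * ρ) hC0 (by linarith) (by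
      intro C hC r
      have hC' : 0 ≤ C := (abs_nonneg _).trans (hC r)
      rw [hmdeq r]
      have h1 := op_kl_src hV hVo hC r
      have h2 := op_kd_maj hV hVo hmμ r
      calc |op V kd m r + op V (kl 1) md r| ≤ |op V kd m r| + |op V (kl 1) md r| := abs_add_le _ _
        _ ≤ 120 * ρ * maj V r + C * src V r := add_le_add h2 h1
        _ ≤ 120 * ρ * (120 * ρ) + C * (60 * ρ) := by
            have e1 := mul_le_mul_of_nonneg_left (hsrc r) hC'
            have e2 := mul_le_mul_of_nonneg_left (hmaj r) (by positivity : 0 ≤ 120 * ρ)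
            linarith
        _ = _ := by ring) r
    refine h.trans ?_
    rw [div_le_iff₀ (by linarith)]
    nlinarith [sq_nonneg ρ]
  -- the upper bound of m near the apex, the lower bound far from it
  have hmnear : ∀ s, 0 < s → m (s • (w0 : E3)) ≤ 33 / 10 * ρ * s + 7442 * ρ ^ 2 := by
    intro s hs
    rw [hm.eq]
    have h1 := op_kl_src hV hVo hmμ (s • (w0 : E3))
    have h2 := src_near hρ hρ1 hs
    have h3 := (le_abs_self _).trans h1
    have h4 : 120 * ρ * src V (s • (w0 : E3)) ≤ 120 * ρ * (60 * ρ) := by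
      have := hsrc (s • (w0 : E3))
      gcongr
    have h5 : 120 * ρ * (60 * ρ) = 7200 * ρ ^ 2 := by ring
    linarith
  have hmfar : ∀ s, 0 < s → s ≤ 9 → ρ * s - 90 * ρ ^ 2 ≤ m (s • (w0 : E3)) := by
    intro s hs hs9
    rw [hm.eq]
    have h1 := src_far hρ hρ1 hs hs9
    have h2 : 0 ≤ op V (kl 1) m (s • (w0 : E3)) :=
      op_nonneg (fun x _ => kl_nonneg zero_le_one x) hm0 _
    linarith
  -- the integrand
  set F : ℝ → ℝ := fun x => kd x * m ((1 / 10 : ℝ) • (w0 : E3) + x • (w0 : E3)) +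
    kl 1 x * md ((1 / 10 : ℝ) • (w0 : E3) + x • (w0 : E3)) with hF
  have hFint : ∀ a b, IntervalIntegrable F volume a b := by
    intro a b
    have i1 := intervalIntegrable_ray continuous_kd hm.meas hmμ ((1 / 10 : ℝ) • (w0 : E3)) w0 a b
    have i2 := intervalIntegrable_ray (continuous_kl 1) hmd hmdν ((1 / 10 : ℝ) • (w0 : E3)) w0 a b
    exact i1.add i2
  have hval : ray V kd m ((1 / 10 : ℝ) • (w0 : E3)) w0 +
      ray V (kl 1) md ((1 / 10 : ℝ) • (w0 : E3)) w0 = ∫ x in (0 : ℝ)..(99 / 10), F x := by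
    unfold ray
    rw [exit_apex hρ hρ2]
    have i1 := intervalIntegrable_ray continuous_kd hm.meas hmμ ((1 / 10 : ℝ) • (w0 : E3)) w0 0
      (99 / 10)
    have i2 := intervalIntegrable_ray (continuous_kl 1) hmd hmdν ((1 / 10 : ℝ) • (w0 : E3)) w0 0
      (99 / 10)
    rw [← intervalIntegral.integral_add i1 i2]
  have hkl : ∀ x, 0 ≤ x → kl 1 x * md ((1 / 10 : ℝ) • (w0 : E3) + x • (w0 : E3)) ≤
      28800 * ρ ^ 2 := by
    intro x hx
    have h1 : kl 1 x ≤ 1 := by
      unfold kl
      rw [one_mul, one_mul]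
      exact Real.exp_le_one_iff.mpr (by linarith)
    have h0 := kl_nonneg zero_le_one x
    have h2 := (le_abs_self _).trans (hmdν ((1 / 10 : ℝ) • (w0 : E3) + x • (w0 : E3)))
    calc kl 1 x * md ((1 / 10 : ℝ) • (w0 : E3) + x • (w0 : E3)) ≤ kl 1 x * (28800 * ρ ^ 2) := by
          gcongr
      _ ≤ 1 * (28800 * ρ ^ 2) := by gcongr
      _ = _ := one_mul _
  have hax : ∀ x : ℝ, (1 / 10 : ℝ) • (w0 : E3) + x • (w0 : E3) = (1 / 10 + x) • (w0 : E3) :=
    fun x => (add_smul _ _ _).symm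
  have I1 : ∫ x in (0 : ℝ)..1, F x ≤
      ∫ x in (0 : ℝ)..1, (kd x * (33 / 10 * ρ * x + (33 / 100 * ρ + 7442 * ρ ^ 2)) +
        28800 * ρ ^ 2) := by
    apply intervalIntegral.integral_mono_on zero_le_one (hFint 0 1)
      (((continuous_kd.mul (by fun_prop)).add continuous_const).intervalIntegrable _ _)
    intro x hx
    have h1 := hkl x hx.1
    have h2 : kd x * m ((1 / 10 : ℝ) • (w0 : E3) + x • (w0 : E3)) ≤
        kd x * (33 / 10 * ρ * x + (33 / 100 * ρ + 7442 * ρ ^ 2)) := by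
      have h3 : 0 ≤ kd x := by
        unfold kd
        have := hx.2
        have := Real.exp_pos (-x)
        exact mul_nonneg (by linarith) this.le
      have h4 := hmnear (1 / 10 + x) (by linarith [hx.1])
      rw [hax]
      apply mul_le_mul_of_nonneg_left _ h3
      linarith
    exact add_le_add h2 h1
  have I2 : ∫ x in (1 : ℝ)..8, F x ≤
      ∫ x in (1 : ℝ)..8, (kd x * (ρ * x + (1 / 10 * ρ - 90 * ρ ^ 2)) + 28800 * ρ ^ 2) := by
    apply intervalIntegral.integral_mono_on (by norm_num) (hFint 1 8)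
      (((continuous_kd.mul (by fun_prop)).add continuous_const).intervalIntegrable _ _)
    intro x hx
    have h1 := hkl x (by linarith [hx.1])
    have h2 : kd x * m ((1 / 10 : ℝ) • (w0 : E3) + x • (w0 : E3)) ≤
        kd x * (ρ * x + (1 / 10 * ρ - 90 * ρ ^ 2)) := by
      have h3 : kd x ≤ 0 := by
        unfold kd
        have := hx.1
        have := Real.exp_pos (-x)
        exact mul_nonpos_of_nonpos_of_nonneg (by linarith) this.le
      have h4 := hmfar (1 / 10 + x) (by linarith [hx.1]) (by linarith [hx.2])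
      rw [hax]
      apply mul_le_mul_of_nonpos_left _ h3
      linarith
    exact add_le_add h2 h1
  have I3 : ∫ x in (8 : ℝ)..(99 / 10), F x ≤ ∫ _ in (8 : ℝ)..(99 / 10), 28800 * ρ ^ 2 := by
    apply intervalIntegral.integral_mono_on (by norm_num) (hFint _ _)
      (continuous_const.intervalIntegrable _ _)
    intro x hx
    have h1 := hkl x (by linarith [hx.1])
    have h2 : kd x * m ((1 / 10 : ℝ) • (w0 : E3) + x • (w0 : E3)) ≤ 0 := by
      apply mul_nonpos_of_nonpos_of_nonneg _ (hm0 _)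
      unfold kd
      have := hx.1
      exact mul_nonpos_of_nonpos_of_nonneg (by linarith) (Real.exp_pos _).le
    have := add_le_add h2 h1
    rwa [zero_add] at this
  rw [integral_kd_lin'] at I1 I2
  rw [intervalIntegral.integral_const, smul_eq_mul] at I3
  have e1 := intervalIntegral.integral_add_adjacent_intervals (hFint 0 1) (hFint 1 8)
  have e2 := intervalIntegral.integral_add_adjacent_intervals (hFint 0 8) (hFint 8 (99 / 10))
  rw [hval, ← e2, ← e1]
  have x0 : Real.exp (-0 : ℝ) = 1 := by simp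
  rw [x0] at I1
  -- numerical bounds
  have x1 : Real.exp (-1 : ℝ) < 0.3679 := lt_trans Real.exp_neg_one_lt_d9 (by norm_num)
  have x2 : 0.3678 < Real.exp (-1 : ℝ) := lt_trans (by norm_num) Real.exp_neg_one_gt_d9
  have x8 : Real.exp (-8 : ℝ) = Real.exp (-1) ^ 8 := by
    rw [← Real.exp_nat_mul]; norm_num
  have x9 : Real.exp (-8 : ℝ) ≤ 0.0004 := by
    rw [x8]
    calc Real.exp (-1 : ℝ) ^ 8 ≤ 0.3679 ^ 8 := by gcongr
      _ ≤ 0.0004 := by norm_num
  have x10 : 0 ≤ Real.exp (-8 : ℝ) := (Real.exp_pos _).le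
  set E := Real.exp (-1 : ℝ) with hE
  set G := Real.exp (-8 : ℝ) with hG
  have hρsq : ρ ^ 2 ≤ ρ * (1 / 10 ^ 6) := by
    rw [sq]; gcongr
  have hρsq0 : 0 ≤ ρ ^ 2 := sq_nonneg ρ
  have y1 : ρ * E ≤ ρ * 0.3679 := by gcongr
  have y2 : ρ * 0.3678 ≤ ρ * E := by gcongr
  have y3 : ρ ^ 2 * E ≤ ρ ^ 2 * 1 := by gcongr; linarith
  have y4 : 0 ≤ ρ ^ 2 * E := by positivity
  have y5 : ρ * G ≤ ρ * 0.0004 := by gcongr
  have y6 : 0 ≤ ρ * G := by positivity
  have y7 : ρ ^ 2 * G ≤ ρ ^ 2 * 1 := by gcongr; linarith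
  have y8 : 0 ≤ ρ ^ 2 * G := by positivity
  norm_num at I1 I2 I3
  nlinarith

end

end Pool.Agent.H30TR
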