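import Pool.Agent.H30TR.Sign

/-!
Small domains: the derivative is positive.
-/

set_option autoImplicit false

open Set Topology MeasureTheory Metric Filter

namespace Pool.Agent.H30TR

open Pool.Agent.R239.Transp

section

variable {V : Set E3} {R : ℝ} (hV : DiamLt V R) (hVo : IsOpen V)

include hV hVo in
/-- a bounded solution of `f = b + K f` with `b ≥ 0` is nonnegative -/
lemma nonneg_of_eq {b md : E3 → ℝ} (hmd : Measurable md) {C0 : ℝ} (hC : ∀ r, |md r| ≤ C0)
    (hb : ∀ r, 0 ≤ b r) (heq : ∀ r, md r = b r + op V (kl 1) md r) (r : E3) : 0 ≤ md r := by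
  have hC0 : 0 ≤ C0 := (abs_nonneg _).trans (hC 0)
  set q := 1 - Real.exp (-(1 * R)) with hq
  have hR := hV.1
  have hq1 : q < 1 := by linarith [Real.exp_pos (-(1 * R))]
  have hq0 : 0 ≤ q := by
    have : Real.exp (-(1 * R)) ≤ 1 := Real.exp_le_one_iff.mpr (by linarith)
    linarith
  have key : ∀ n : ℕ, ∀ r, -(q ^ n * C0) ≤ md r := by
    intro n
    induction n with
    | zero => intro r; have := (abs_le.1 (hC r)).1; simpa using this
    | succ n ih =>
      intro r
      set c := q ^ n * C0 with hc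
      have hc0 : 0 ≤ c := by positivity
      have h1 : 0 ≤ op V (kl 1) (fun r => md r + c) r :=
        op_nonneg (fun x _ => kl_nonneg zero_le_one x) (fun r => by linarith [ih r]) r
      rw [op_add hV hVo (continuous_kl 1) hmd measurable_const hC (C' := c)
        (fun _ => by rw [abs_of_nonneg hc0]) r] at h1
      have h2 := (le_abs_self _).trans (op_kl_bound hV one_pos (fun _ => c) c
        (fun _ => by rw [abs_of_nonneg hc0]) r)
      rw [heq r]
      have h3 : q ^ (n + 1) * C0 = q * c := by rw [hc]; ring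
      rw [h3]
      linarith [hb r]
  have ht : Tendsto (fun n : ℕ => -(q ^ n * C0)) atTop (𝓝 (-(0 * C0))) :=
    ((tendsto_pow_atTop_nhds_zero_of_lt_one hq0 hq1).mul_const _).neg
  rw [zero_mul, neg_zero] at ht
  exact le_of_tendsto' ht (fun n => key n r)

lemma exitD_le_one (hd : ∀ p ∈ V, ∀ q ∈ V, dist p q ≤ 1) (r : E3) (w : S2) :
    exitD V r w ≤ 1 := by
  by_contra hcon
  rw [not_le] at hcon
  have h1 := mem_of_lt_exitD (V := V) (r := r) (w := w) (t := (exitD V r w - 1) / 3)
    (by linarith) (by linarith)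
  have h2 := mem_of_lt_exitD (V := V) (r := r) (w := w)
    (t := (exitD V r w - 1) / 3 + (1 + (exitD V r w - 1) / 3)) (by linarith) (by linarith)
  have h3 := hd _ h2 _ h1
  rw [dist_ray, add_sub_cancel_left, abs_of_pos (by linarith)] at h3
  linarith

include hV in
lemma exitD_pos (hVo : IsOpen V) {r : E3} (hr : r ∈ V) (w : S2) : 0 < exitD V r w := by
  obtain ⟨ε, hε, hsub⟩ := Metric.isOpen_iff.1 hVo r hr
  refine lt_of_lt_of_le hε (le_exitD hV (fun t h1 h2 => hsub ?_))
  rw [mem_ball, dist_eq_norm, add_sub_cancel_left, norm_smul, norm_S2, mul_one,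
    Real.norm_eq_abs, abs_of_pos h1]
  exact h2

include hV hVo in
lemma src_pos {r : E3} (hr : r ∈ V) : 0 < src V r := by
  have h1 : ∀ w, 0 < 1 - Real.exp (-exitD V r w) := by
    intro w
    have h2 := exitD_pos hV hVo hr w
    have : Real.exp (-exitD V r w) < 1 := Real.exp_lt_one_iff.2 (by linarith)
    linarith
  unfold src
  rw [integral_pos_iff_support_of_nonneg (fun w => (h1 w).le) (integrable_src hV hVo r)]
  have : Function.support (fun w => 1 - Real.exp (-exitD V r w)) = univ :=
    eq_univ_of_forall fun w => (h1 w).ne'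
  rw [this]
  simp

include hV hVo in
/-- the sign of the derivative for domains of diameter at most one -/
theorem sign_small (hd : ∀ p ∈ V, ∀ q ∈ V, dist p q ≤ 1) (m md : E3 → ℝ) (hm : IsAvg V 1 m)
    (hm0 : ∀ r, 0 ≤ m r) (hmd : Measurable md) (hC : ∃ C, ∀ r, |md r| ≤ C)
    (hmdeq : ∀ r, md r = op V kd m r + op V (kl 1) md r) {r : E3} (hr : r ∈ V) (w : S2) :
    0 < ray V kd m r w + ray V (kl 1) md r w := by
  obtain ⟨C0, hC0⟩ := hC
  obtain ⟨Cm, hCm⟩ := hm.bdd
  have hkd : ∀ x, x ≤ 1 → 0 ≤ kd x := by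
    intro x hx
    unfold kd
    exact mul_nonneg (by linarith) (Real.exp_pos _).le
  have hray : ∀ r w, 0 ≤ ray V kd m r w := by
    intro r w
    apply intervalIntegral.integral_nonneg (exitD_nonneg _ _ _)
    intro x hx
    exact mul_nonneg (hkd x (hx.2.trans (exitD_le_one hd r w))) (hm0 _)
  have hmd0 := nonneg_of_eq hV hVo hmd hC0 (b := op V kd m)
    (fun r => integral_nonneg fun w => hray r w) hmdeq
  have h1 : 0 ≤ ray V (kl 1) md r w :=
    ray_nonneg (fun x _ => kl_nonneg zero_le_one x) hmd0 r w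
  have h2 : 0 < ray V kd m r w := by
    apply intervalIntegral.intervalIntegral_pos_of_pos_on
      (intervalIntegrable_ray continuous_kd hm.meas hCm r w 0 (exitD V r w)) _
      (exitD_pos hV hVo hr w)
    intro x hx
    have h3 : 0 < kd x := by
      unfold kd
      have := hx.2.trans_le (exitD_le_one hd r w)
      exact mul_pos (by linarith) (Real.exp_pos _)
    have h4 := mem_of_lt_exitD (V := V) hx.1 hx.2
    have h5 : 0 < m (r + x • (w : E3)) := by
      rw [hm.eq]
      have h6 : 0 ≤ op V (kl 1) m (r + x • (w : E3)) :=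
        op_nonneg (fun x _ => kl_nonneg zero_le_one x) hm0 _
      linarith [src_pos hV hVo h4]
    exact mul_pos h3 h5
  linarith

end

end Pool.Agent.H30TR
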